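import Pool.Agent.Helper2.E8C.Stm

/-! Parts AUT and TRANS of the project E8C of helper2: automorphisms of the lattice, transitivity on the
roots. -/

set_option autoImplicit false

namespace Pool.Agent.Helper97.E8C

open Pool.Agent.Q10.E8
open Pool.Agent.Helper2.E8C hiding flip


lemma isE8_perm (σ : Equiv.Perm (Fin 8)) {v : Fin 8 → ℤ} (hv : IsE8 v) : IsE8 (v ∘ σ) := by
  refine ⟨fun i j => hv.1 _ _, ?_⟩
  have : ∑ i, (v ∘ σ) i = ∑ i, v i := Equiv.sum_comp σ v
  rw [this]
  exact hv.2

lemma aut_perm (σ : Equiv.Perm (Fin 8)) : IsAut (fun v => v ∘ σ) := by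
  refine ⟨⟨fun v hv => isE8_perm σ hv, ?_, ?_⟩, ?_⟩
  · intro u _ v _ h
    funext k
    have := congrFun h (σ.symm k)
    simpa using this
  · intro v hv
    refine ⟨v ∘ σ.symm, isE8_perm σ.symm hv, ?_⟩
    funext k
    simp
  · intro u v _ _
    exact Equiv.sum_comp σ (fun i => u i * v i)

lemma flip_flip (i j : Fin 8) (v : Fin 8 → ℤ) : Pool.Agent.Helper2.E8C.flip i j (Pool.Agent.Helper2.E8C.flip i j v) = v := by
  funext k
  unfold Pool.Agent.Helper2.E8C.flip
  split_ifs <;> simp

lemma sum_flip {i j : Fin 8} (hij : i ≠ j) (v : Fin 8 → ℤ) :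
    ∑ k, Pool.Agent.Helper2.E8C.flip i j v k = ∑ k, v k - 2 * (v i + v j) := by
  have h : ∀ k, Pool.Agent.Helper2.E8C.flip i j v k = v k - 2 * ((if k = i then v k else 0) + (if k = j then v k else 0)) := by
    intro k
    unfold Pool.Agent.Helper2.E8C.flip
    by_cases h1 : k = i
    · simp [h1, hij]
      ring
    · by_cases h2 : k = j
      · have h3 : j ≠ i := fun h => hij h.symm
        simp [h2, h3]
        ring
      · simp [h1, h2]
  rw [Finset.sum_congr rfl fun k _ => h k, Finset.sum_sub_distrib, ← Finset.mul_sum,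
    Finset.sum_add_distrib]
  simp

lemma isE8_flip {i j : Fin 8} (hij : i ≠ j) {v : Fin 8 → ℤ} (hv : IsE8 v) : IsE8 (Pool.Agent.Helper2.E8C.flip i j v) := by
  have h : ∀ k, Pool.Agent.Helper2.E8C.flip i j v k % 2 = v 0 % 2 := by
    intro k
    have := hv.1 k 0
    unfold Pool.Agent.Helper2.E8C.flip
    split_ifs <;> omega
  refine ⟨fun a b => (h a).trans (h b).symm, ?_⟩
  rw [sum_flip hij]
  have h1 := hv.1 i j
  have h2 := hv.2
  omega

lemma aut_flip {i j : Fin 8} (hij : i ≠ j) : IsAut (Pool.Agent.Helper2.E8C.flip i j) := by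
  refine ⟨⟨fun v hv => isE8_flip hij hv, ?_, ?_⟩, ?_⟩
  · intro u _ v _ h
    rw [← flip_flip i j u, h, flip_flip]
  · intro v hv
    exact ⟨Pool.Agent.Helper2.E8C.flip i j v, isE8_flip hij hv, flip_flip i j v⟩
  · intro u v _ _
    refine Finset.sum_congr rfl fun k _ => ?_
    unfold Pool.Agent.Helper2.E8C.flip
    split_ifs <;> ring

lemma isE8_gq {v : Fin 8 → ℤ} (hv : IsE8 v) : IsE8 (gq v) := by
  have h1 := hv.1 1 0
  have h2 := hv.1 2 0
  have h3 := hv.1 3 0
  have h4 := hv.1 4 0
  have h5 := hv.1 5 0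
  have h6 := hv.1 6 0
  have h7 := hv.1 7 0
  have h8 := hv.2
  rw [Fin.sum_univ_eight] at h8
  have key : ∀ k, gq v k % 2 = gq v 0 % 2 := by
    intro k
    fin_cases k <;> simp [gq] <;> omega
  refine ⟨fun i j => (key i).trans (key j).symm, ?_⟩
  rw [Fin.sum_univ_eight]
  simp [gq]
  omega

lemma gq_gq {v : Fin 8 → ℤ} (hv : IsE8 v) : gq (gq v) = v := by
  have h1 := hv.1 1 0
  have h2 := hv.1 2 0
  have h3 := hv.1 3 0
  have h4 := hv.1 4 0
  have h5 := hv.1 5 0
  have h6 := hv.1 6 0
  have h7 := hv.1 7 0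
  have h8 := hv.2
  rw [Fin.sum_univ_eight] at h8
  funext k
  fin_cases k <;> simp [gq] <;> omega

lemma aut_gq : IsAut gq := by
  refine ⟨⟨fun v hv => isE8_gq hv, ?_, ?_⟩, ?_⟩
  · intro u hu v hv h
    rw [← gq_gq hu, h, gq_gq hv]
  · intro v hv
    exact ⟨gq v, isE8_gq hv, gq_gq hv⟩
  · intro u v hu hv
    obtain ⟨a, ha⟩ : ∃ a, u 0 + u 1 + u 2 + u 3 = 2 * a := by
      have h1 := hu.1 1 0
      have h2 := hu.1 2 0
      have h3 := hu.1 3 0
      exact ⟨(u 0 + u 1 + u 2 + u 3) / 2, by omega⟩
    obtain ⟨b, hb⟩ : ∃ a, u 4 + u 5 + u 6 + u 7 = 2 * a := by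
      have h1 := hu.1 5 4
      have h2 := hu.1 6 4
      have h3 := hu.1 7 4
      exact ⟨(u 4 + u 5 + u 6 + u 7) / 2, by omega⟩
    obtain ⟨c, hc⟩ : ∃ a, v 0 + v 1 + v 2 + v 3 = 2 * a := by
      have h1 := hv.1 1 0
      have h2 := hv.1 2 0
      have h3 := hv.1 3 0
      exact ⟨(v 0 + v 1 + v 2 + v 3) / 2, by omega⟩
    obtain ⟨d, hd⟩ : ∃ a, v 4 + v 5 + v 6 + v 7 = 2 * a := by
      have h1 := hv.1 5 4
      have h2 := hv.1 6 4
      have h3 := hv.1 7 4
      exact ⟨(v 4 + v 5 + v 6 + v 7) / 2, by omega⟩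
    have ea : (u 0 + u 1 + u 2 + u 3) / 2 = a := by omega
    have eb : (u 4 + u 5 + u 6 + u 7) / 2 = b := by omega
    have ec : (v 0 + v 1 + v 2 + v 3) / 2 = c := by omega
    have ed : (v 4 + v 5 + v 6 + v 7) / 2 = d := by omega
    rw [Fin.sum_univ_eight, Fin.sum_univ_eight]
    simp only [gq, ea, eb, ec, ed]
    norm_num
    have hu0 : u 0 = 2 * a - u 1 - u 2 - u 3 := by linarith
    have hu4 : u 4 = 2 * b - u 5 - u 6 - u 7 := by linarith
    have hv0 : v 0 = 2 * c - v 1 - v 2 - v 3 := by linarith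
    have hv4 : v 4 = 2 * d - v 5 - v 6 - v 7 := by linarith
    rw [hu0, hu4, hv0, hv4]
    ring

theorem t_AUT : S_AUT := ⟨aut_perm, fun _ _ h => aut_flip h, aut_gq⟩

/-- the root `2 (e_i + e_j)` -/
def E (i j : Fin 8) : Fin 8 → ℤ := fun k => if k = i ∨ k = j then 2 else 0

lemma E_swap (i j : Fin 8) : E i j ∘ (Equiv.swap i 0) = E 0 (Equiv.swap i 0 j) := by
  revert i j
  decide +kernel

lemma E_swap' (j : Fin 8) (h : j ≠ 0) : E 0 j ∘ (Equiv.swap j 1) = E 0 1 := by
  revert j h
  decide +kernel

lemma E_zero_one : E 0 1 = ![2, 2, 0, 0, 0, 0, 0, 0] := by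
  decide +kernel

section
variable {T : (Fin 8 → ℤ) → ℝ} (hp : ∀ (σ : Equiv.Perm (Fin 8)) v, T (v ∘ σ) = T v)
  (hf : ∀ i j : Fin 8, i ≠ j → ∀ v, T (Pool.Agent.Helper2.E8C.flip i j v) = T v)
include hp

lemma T_E {i j : Fin 8} (hij : i ≠ j) : T (E i j) = T ![2, 2, 0, 0, 0, 0, 0, 0] := by
  rw [← hp (Equiv.swap i 0) (E i j), E_swap]
  set k := Equiv.swap i 0 j with hk
  have hk0 : k ≠ 0 := by
    intro h
    have : Equiv.swap i 0 k = j := by rw [hk]; simp
    rw [h] at this
    simp at this
    exact hij this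
  rw [← hp (Equiv.swap k 1) (E 0 k), E_swap' k hk0, E_zero_one]

include hf

lemma T_even {r : Fin 8 → ℤ} (hr : InShell 1 r) (h0 : r 0 % 2 = 0) :
    T r = T ![2, 2, 0, 0, 0, 0, 0, 0] := by
  obtain ⟨⟨h1, h2⟩, h3⟩ := hr
  have hle : ∀ i, r i ^ 2 ≤ 8 := by
    intro i
    have := Finset.single_le_sum (f := fun i => r i ^ 2) (fun i _ => sq_nonneg _)
      (Finset.mem_univ i)
    simp only [h3] at this
    simpa using this
  have hval : ∀ i, r i = -2 ∨ r i = 0 ∨ r i = 2 := by
    intro i
    have a1 := h1 i 0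
    have a2 := hle i
    have a3 : r i ≤ 2 := by nlinarith
    have a4 : -2 ≤ r i := by nlinarith
    omega
  -- the support has two elements
  have hcard : (Finset.univ.filter (fun i => r i ≠ 0)).card = 2 := by
    have e1 : ∑ i, r i ^ 2 = ∑ i ∈ Finset.univ.filter (fun i => r i ≠ 0), 4 := by
      rw [Finset.sum_filter]
      refine Finset.sum_congr rfl fun i _ => ?_
      rcases hval i with h | h | h <;> simp [h]
    rw [e1, Finset.sum_const, nsmul_eq_mul] at h3
    push_cast at h3
    omega
  obtain ⟨i, j, hij, hs⟩ := Finset.card_eq_two.mp hcard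
  have hmem : ∀ k, r k ≠ 0 ↔ k = i ∨ k = j := by
    intro k
    have : k ∈ Finset.univ.filter (fun i => r i ≠ 0) ↔ k ∈ ({i, j} : Finset (Fin 8)) := by rw [hs]
    simpa using this
  obtain ⟨l, hli, hlj⟩ : ∃ l : Fin 8, l ≠ i ∧ l ≠ j := by
    revert i j
    intro i j _ _ _
    clear * -
    revert i j
    decide
  have hl0 : r l = 0 := by
    by_contra h
    rcases (hmem l).1 h with h | h
    · exact hli h
    · exact hlj h
  have hi := hval i
  have hj := hval j
  have hi0 : r i ≠ 0 := (hmem i).2 (Or.inl rfl)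
  have hj0 : r j ≠ 0 := (hmem j).2 (Or.inr rfl)
  have hother : ∀ k, k ≠ i → k ≠ j → r k = 0 := by
    intro k hki hkj
    by_contra h
    rcases (hmem k).1 h with h | h
    · exact hki h
    · exact hkj h
  rw [← T_E hp hij]
  rcases hi with hi | hi | hi
  · rcases hj with hj | hj | hj
    · rw [← hf i j hij r]
      congr 1
      funext k
      unfold Pool.Agent.Helper2.E8C.flip E
      by_cases h : k = i ∨ k = j
      · simp only [h, if_true]
        rcases h with h | h <;> simp [h, hi, hj]
      · simp only [h, if_false]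
        push Not at h
        exact hother k h.1 h.2
    · exact absurd hj hj0
    · rw [← hf i l (Ne.symm hli) r]
      congr 1
      funext k
      unfold Pool.Agent.Helper2.E8C.flip E
      by_cases h : k = i
      · subst h; simp [hi]
      · by_cases h' : k = j
        · subst h'
          simp [h, Ne.symm hlj, hj]
        · by_cases h'' : k = l
          · subst h''; simp [h, h', hl0]
          · simp [h, h', h'', hother k h h']
  · exact absurd hi hi0
  · rcases hj with hj | hj | hj
    · rw [← hf j l (Ne.symm hlj) r]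
      congr 1
      funext k
      unfold Pool.Agent.Helper2.E8C.flip E
      by_cases h : k = j
      · subst h; simp [hj]
      · by_cases h' : k = i
        · subst h'
          simp [h, Ne.symm hli, hi]
        · by_cases h'' : k = l
          · subst h''; simp [h, h', hl0]
          · simp [h, h', h'', hother k h' h]
    · exact absurd hj hj0
    · congr 1
      funext k
      unfold E
      by_cases h : k = i ∨ k = j
      · simp only [h, if_true]
        rcases h with h | h <;> simp [h, hi, hj]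
      · simp only [h, if_false]
        push Not at h
        exact hother k h.1 h.2

omit hp in
lemma T_odd_aux (n : ℕ) : ∀ r : Fin 8 → ℤ, (∀ i, r i = 1 ∨ r i = -1) → (∑ i, r i) % 4 = 0 →
    (Finset.univ.filter (fun i => r i = -1)).card = n → T r = T (fun _ => 1) := by
  induction n using Nat.strong_induction_on with
  | _ n ih =>
    intro r hr hs hn
    by_cases h0 : n = 0
    · subst h0
      rw [Finset.card_eq_zero] at hn
      congr 1
      funext k
      rcases hr k with h | h
      · exact h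
      · have : k ∈ Finset.univ.filter (fun i => r i = -1) := by simp [h]
        rw [hn] at this
        simp at this
    · -- the sum is `8 - 2 n`
      have e1 : ∑ i, r i = 8 - 2 * (n : ℤ) := by
        have : ∀ i, r i = 1 - 2 * (if r i = -1 then 1 else 0) := by
          intro i
          rcases hr i with h | h <;> simp [h]
        rw [Finset.sum_congr rfl fun i _ => this i, Finset.sum_sub_distrib, ← Finset.mul_sum,
          Finset.sum_boole, hn]
        simp
      have hn2 : 2 ≤ n := by
        rw [e1] at hs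
        omega
      have : 1 < (Finset.univ.filter (fun i => r i = -1)).card := by omega
      obtain ⟨i, hi, j, hj, hij⟩ := Finset.one_lt_card.mp this
      have hi' : r i = -1 := (Finset.mem_filter.mp hi).2
      have hj' : r j = -1 := (Finset.mem_filter.mp hj).2
      rw [← hf i j hij r]
      refine ih ((Finset.univ.filter (fun k => Pool.Agent.Helper2.E8C.flip i j r k = -1)).card) ?_ (Pool.Agent.Helper2.E8C.flip i j r) ?_ ?_ rfl
      · rw [← hn]
        refine Finset.card_lt_card ?_
        rw [Finset.ssubset_iff_of_subset]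
        · refine ⟨i, hi, ?_⟩
          rw [Finset.mem_filter]
          rintro ⟨-, h⟩
          simp only [Pool.Agent.Helper2.E8C.flip, true_or, if_true, hi'] at h
          norm_num at h
        · intro k hk
          rw [Finset.mem_filter] at hk ⊢
          refine ⟨hk.1, ?_⟩
          have h2 := hk.2
          unfold Pool.Agent.Helper2.E8C.flip at h2
          split_ifs at h2 with h3
          · rcases h3 with h3 | h3
            · rw [h3]; exact hi'
            · rw [h3]; exact hj'
          · exact h2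
      · intro k
        unfold Pool.Agent.Helper2.E8C.flip
        split_ifs
        · rcases hr k with h | h <;> simp [h]
        · exact hr k
      · rw [sum_flip hij, hi', hj']
        omega

end

theorem t_TRANS : S_TRANS := by
  intro T hp hf hg r hr
  rw [mem_shell] at hr
  rcases Int.emod_two_eq_zero_or_one (r 0) with h0 | h0
  · exact T_even hp hf hr h0
  · obtain ⟨⟨h1, h2⟩, h3⟩ := hr
    have hle : ∀ i, r i ^ 2 ≤ 8 := by
      intro i
      have := Finset.single_le_sum (f := fun i => r i ^ 2) (fun i _ => sq_nonneg _)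
        (Finset.mem_univ i)
      simp only [h3] at this
      simpa using this
    have hval : ∀ i, r i = 1 ∨ r i = -1 := by
      intro i
      have a1 := h1 i 0
      have a2 := hle i
      have a3 : r i ≤ 2 := by nlinarith
      have a4 : -2 ≤ r i := by nlinarith
      omega
    rw [T_odd_aux hf _ r hval h2 rfl]
    have e1 : IsE8 (Pool.Agent.Helper2.E8C.flip 3 7 (fun _ => 1)) := by
      refine isE8_flip (by decide) ⟨fun _ _ => rfl, ?_⟩
      simp
    rw [← hf 3 7 (by decide) (fun _ => 1), ← hg _ e1]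
    refine T_even hp hf ?_ ?_
    · refine ⟨isE8_gq e1, ?_⟩
      decide +kernel
    · decide +kernel

end Pool.Agent.Helper97.E8C
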